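import Pool.Agent.J4H99.SD.Prob

/-!
# A factor-of-iid Schreier decoration of the square lattice with an infinite monochromatic path

We construct a factor-of-iid Schreier decoration of the square lattice which almost surely has a
colour class with a bi-infinite path.
-/

set_option autoImplicit false

open MeasureTheory

namespace Pool.Agent.Results.MP_413f51_pr.InfinitePath

section defs

variable {V : Type*}

/-- `D i x y` says that the edge between `x` and `y` has colour `i` and is oriented from `x` to
`y`. `D` is a Schreier decoration of `G` with `d` colours if every edge gets exactly one colour and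
exactly one orientation, and if for every colour every vertex has exactly one outgoing and exactly
one incoming edge of that colour. -/
structure IsSchreier (G : SimpleGraph V) (d : ℕ) (D : Fin d → V → V → Prop) : Prop where
  adj : ∀ i x y, D i x y → G.Adj x y
  edge : ∀ x y, G.Adj x y →
    ∃! p : Fin d × Bool, (p.2 = true ∧ D p.1 x y) ∨ (p.2 = false ∧ D p.1 y x)
  out : ∀ i x, ∃! y, D i x y
  into : ∀ i y, ∃! x, D i x y

/-- The law of iid uniform labels in `[0, 1]`, one for each vertex. -/
noncomputable def iid (V : Type*) : Measure (V → unitInterval) :=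
  Measure.infinitePi (fun _ : V => (volume : Measure unitInterval))

/-- A factor-of-iid Schreier decoration of `G` with `d` colours: a measurable map `F` of the labels
which commutes with the action of the automorphism group of `G`, and whose value is almost surely a
Schreier decoration. -/
structure IsFactorDecoration (G : SimpleGraph V) (d : ℕ)
    (F : (V → unitInterval) → Fin d → V → V → Prop) : Prop where
  measurable : Measurable F
  equivariant : ∀ (φ : G ≃g G) (ω : V → unitInterval) (i : Fin d) (x y : V),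
    F (fun v => ω (φ.symm v)) i (φ x) (φ y) ↔ F ω i x y
  schreier : ∀ᵐ ω ∂(iid V), IsSchreier G d (F ω)

/-- Some colour class contains a bi-infinite directed path. -/
def HasInfinitePath {d : ℕ} (D : Fin d → V → V → Prop) : Prop :=
  ∃ (i : Fin d) (x : ℤ → V), Function.Injective x ∧ ∀ n, D i (x n) (x (n + 1))

end defs

/-- The square lattice: edges between the points of `ℤ × ℤ` at Euclidean distance `1`. -/
def squareLattice : SimpleGraph (ℤ × ℤ) where
  Adj x y := (x.1 - y.1) ^ 2 + (x.2 - y.2) ^ 2 = 1
  symm := ⟨fun x y h => by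
    rw [← h]
    ring⟩
  loopless := ⟨fun x h => by simp at h⟩

lemma adj_iff (x y : ℤ × ℤ) : squareLattice.Adj x y ↔ J4H99.SD.Adj x y := by
  show (x.1 - y.1) ^ 2 + (x.2 - y.2) ^ 2 = 1 ↔ _
  unfold J4H99.SD.Adj
  constructor
  · intro h
    have h1 : -1 ≤ x.1 - y.1 ∧ x.1 - y.1 ≤ 1 := by constructor <;> nlinarith
    have h2 : -1 ≤ x.2 - y.2 ∧ x.2 - y.2 ≤ 1 := by constructor <;> nlinarith
    have h3 : x.1 - y.1 = -1 ∨ x.1 - y.1 = 0 ∨ x.1 - y.1 = 1 := by omega
    have h4 : x.2 - y.2 = -1 ∨ x.2 - y.2 = 0 ∨ x.2 - y.2 = 1 := by omega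
    rcases h3 with h3 | h3 | h3 <;> rcases h4 with h4 | h4 | h4 <;> rw [h3, h4] at h <;>
      first
      | (exfalso; revert h; norm_num; done)
      | omega
  · rintro (⟨h1, h2 | h2⟩ | ⟨h1, h2 | h2⟩)
    · rw [h1, h2]; ring
    · rw [h1, h2]; ring
    · rw [h1, h2]; ring
    · rw [h1, h2]; ring

open J4H99.SD in
/-- **Theorem.** The square lattice has a factor-of-iid Schreier decoration which almost surely
has an infinite monochromatic path. -/
theorem result : ∃ F : (ℤ × ℤ → unitInterval) → Fin 2 → ℤ × ℤ → ℤ × ℤ → Prop,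
    IsFactorDecoration squareLattice 2 F ∧ ∀ᵐ ω ∂(iid (ℤ × ℤ)), HasInfinitePath (F ω) := by
  have hr2 : ∀ n, rr n % 2 = 0 := rr_even
  have hr8 : ∀ n, 8 ≤ rr n := rr_ge
  have hr0 : ∀ n, 0 ≤ rr n := fun n => by have := rr_ge n; omega
  have hae : ∀ᵐ ω ∂(iid (ℤ × ℤ)), Dist ω ∧ ∀ (x : V) (N : ℕ), ∃ v, N ≤ lev (YF rr mk ω) v ∧
      Bx v (rr (lev (YF rr mk ω) v) - 12) x := by
    filter_upwards [dist_ae, cover_ae] with ω h1 h2 using ⟨h1, h2⟩
  refine ⟨FF rr mk, ⟨FF_measurable rr mk_measurable hr0, ?_, ?_⟩, ?_⟩
  · intro φ ω i x y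
    refine FF_equiv rr mk φ.bijective ?_ ω _ ?_ i x y
    · intro x y
      rw [← adj_iff, ← adj_iff]
      exact φ.map_adj_iff
    · intro v
      simp
  · filter_upwards [hae] with ω ⟨hd, hcov⟩
    have hT := toast_YF rr mk ω
    have e : FF rr mk ω = Dec rr (YF rr mk ω) := by
      funext i x y
      unfold FF
      simp [hd]
    rw [e]
    refine ⟨?_, ?_, ?_, ?_⟩
    · intro i x y h
      exact (adj_iff x y).2 (dec_adj hr2 hr8 hT hcov h)
    · intro x y h
      exact dec_edge hr2 hr8 hT hcov ((adj_iff x y).1 h)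
    · intro i x
      exact dec_out hr2 hr8 hT hcov i x
    · intro i y
      exact dec_into hr2 hr8 hT hcov i y
  · filter_upwards [hae] with ω ⟨hd, hcov⟩
    have hT := toast_YF rr mk ω
    have e : FF rr mk ω = Dec rr (YF rr mk ω) := by
      funext i x y
      unfold FF
      simp [hd]
    rw [e]
    obtain ⟨x, h1, h2⟩ := dec_path hr2 hr8 hT hcov
    exact ⟨0, x, h1, h2⟩

end Pool.Agent.Results.MP_413f51_pr.InfinitePath
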